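import Pool.Agent.N555.Rotor.Geo

set_option autoImplicit false

/-!
# MP_c2e62a_gt: the only rotors in a regular triangular prism are balls

Let `T` be an equilateral triangle in the plane `z = 0` and `Π = T × ℝ`. A convex body `K` which can
be placed in `Π` in every orientation such that it touches all three faces is a ball (whose radius is
the inradius of `T`); conversely these balls are rotors. So there is no non-spherical rotor.

The proof. If `K` is a rotor then its support function `h` satisfies `h(a) + h(b) + h(c) = 3r` for all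
unit vectors with `a + b + c = 0`, where `r` is the inradius. Let `f = h - r` on the sphere.
(1) The configuration of the 12 roots of `A₃` gives `f(u) + f(-u) = f(w) + f(-w)` for orthogonal unit
vectors `u`, `w`; hence `f` is odd, and `f(a) + f(b) = f(a + b)` if `a`, `b`, `a + b` are unit vectors.
(2) If `a`, `b`, `c` are unit vectors with `⟪a, c⟫ = 1/2`, `⟪b, c⟫ = -1/2` then
`f(a) + f(b) = f(a - c) + f(b + c)`. This rotates the pair `(a, b)` about `a + b` by an angle which
depends only on `|a + b|`, and which is an irrational multiple of `2π` for a dense set of the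
parameters; by continuity, `f(a) + f(b)` depends only on `a + b`. (3) So `F(a + b) = f(a) + f(b)` is
well defined on the unit ball; it is odd and additive on orthogonal pairs, hence linear.
-/

namespace Pool.Agent.Results.MP_c2e62a_gt.OnlyBalls

/-- three-dimensional Euclidean space; the coordinates of `x` are `x 0`, `x 1`, `x 2` -/
abbrev E3 : Type := EuclideanSpace ℝ (Fin 3)

/-- the vertical unit vector `(0, 0, 1)` -/
noncomputable def e₃ : E3 := EuclideanSpace.single 2 1

/-- the set `S × ℝ = {y + z e₃ : y ∈ S, z ∈ ℝ}`, for a set `S` in the plane `z = 0` -/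
def TimesR (S : Set E3) : Set E3 := {x | ∃ y ∈ S, ∃ z : ℝ, x = y + z • e₃}

/-- `L` is contained in the prism over the triangle `A B C` and meets each of its three faces -/
def Inscribed (A B C : E3) (L : Set E3) : Prop :=
  L ⊆ TimesR (convexHull ℝ {A, B, C}) ∧ (L ∩ TimesR (segment ℝ A B)).Nonempty ∧
    (L ∩ TimesR (segment ℝ B C)).Nonempty ∧ (L ∩ TimesR (segment ℝ C A)).Nonempty

/-- `ρ` is a rotation, i.e. an element of `SO(3)`: a linear isometry with determinant `1` -/
def IsRotation (ρ : E3 ≃ₗᵢ[ℝ] E3) : Prop :=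
  LinearMap.det (ρ.toLinearEquiv : E3 →ₗ[ℝ] E3) = 1

/-- `K` is a rotor in the prism over the triangle `A B C`: for every rotation `ρ` there is a
translation vector `t` such that `ρ K + t` is contained in the prism and meets each of its three
faces. -/
def IsRotor (A B C : E3) (K : Set E3) : Prop :=
  ∀ ρ : E3 ≃ₗᵢ[ℝ] E3, IsRotation ρ → ∃ t : E3, Inscribed A B C ((fun x => ρ x + t) '' K)

/-- **Main theorem.** Let `A B C` be an equilateral triangle with side `s` in the plane `z = 0`, and
let `K` be a convex body in `ℝ³`. Then `K` is a rotor in the prism over `A B C` if and only if it is a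
ball with radius `s / (2 √3)`. -/
theorem result (A B C : E3) (hA : A 2 = 0) (hB : B 2 = 0) (hC : C 2 = 0) (s : ℝ) (hs : 0 < s)
    (hAB : dist A B = s) (hBC : dist B C = s) (hCA : dist C A = s) (K : Set E3)
    (hK : Convex ℝ K) (hKc : IsCompact K) (hKi : (interior K).Nonempty) :
    IsRotor A B C K ↔ ∃ c : E3, K = Metric.closedBall c (s / (2 * √3)) := by
  rw [← Pool.Agent.N555.Rotor.main hA hB hC hs hAB hBC hCA hK hKc hKi]
  refine forall_congr' fun ρ => forall_congr' fun _ => exists_congr fun t => ?_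
  constructor
  · rintro ⟨h, ⟨_, ⟨x, hx, rfl⟩, hx'⟩, ⟨_, ⟨y, hy, rfl⟩, hy'⟩, ⟨_, ⟨z, hz, rfl⟩, hz'⟩⟩
    exact ⟨fun x hx => h ⟨x, hx, rfl⟩, ⟨x, hx, hx'⟩, ⟨y, hy, hy'⟩, ⟨z, hz, hz'⟩⟩
  · rintro ⟨h, ⟨x, hx, hx'⟩, ⟨y, hy, hy'⟩, ⟨z, hz, hz'⟩⟩
    refine ⟨?_, ⟨_, ⟨x, hx, rfl⟩, hx'⟩, ⟨_, ⟨y, hy, rfl⟩, hy'⟩, ⟨_, ⟨z, hz, rfl⟩, hz'⟩⟩
    rintro _ ⟨x, hx, rfl⟩
    exact h x hx

end Pool.Agent.Results.MP_c2e62a_gt.OnlyBalls
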